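import Pool.Agent.H564R3.DR.NoPer
import Pool.Agent.H564R3.DR.Wang

set_option autoImplicit false

open MeasureTheory Set
open Pool.Agent.H564R3.DR

namespace Pool.Agent.Results.MP_b7f0d9_co.BalancedRule

open Pool.Agent.Helper777.Prof in
/-- The block code: blocks of size `K = 2s + N + 1`, `N` the number of Wang tiles, `s > ρ`. -/
noncomputable def blk (ρ : ℝ) : Blk KT where
  code := fun w => ((Fintype.equivFin KT w : Fin (Fintype.card KT)) : ℕ)
  K := 2 * (⌈ρ⌉.toNat + 1) + Fintype.card KT + 1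
  s := ⌈ρ⌉.toNat + 1
  s_pos := by positivity
  code_nonneg := fun w => by positivity
  code_lt := fun w => by
    have := (Fintype.equivFin KT w).isLt
    omega
  inj := by
    intro w w' h
    have h0 : (((Fintype.equivFin KT w : Fin (Fintype.card KT)) : ℕ) : ℤ) =
        (((Fintype.equivFin KT w' : Fin (Fintype.card KT)) : ℕ) : ℤ) := h
    have h1 : ((Fintype.equivFin KT w : Fin (Fintype.card KT)) : ℕ) =
        ((Fintype.equivFin KT w' : Fin (Fintype.card KT)) : ℕ) := Nat.cast_injective h0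
    exact (Fintype.equivFin KT).injective (Fin.ext h1)
  two_lt := by omega
  s_lt := by omega

open Pool.Agent.Helper777.Prof in
/-- For every `ρ` there is a prototile set `F` in the plane and a matching rule `M` (with either
convention for the balls) such that: legal tilings exist; no legal tiling has a nonzero period;
conditions (A) and (B) hold for the numbers of tiles of each type; and moreover the same bound holds
for the number of occurrences of every pattern of diameter at most `ρ`. -/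
theorem result : ∀ (ρ : ℝ) (ball : E 2 → ℝ → Set (E 2)), IsBall ball →
    ∃ (F : Prototiles 2) (M : MatchingRule F),
      (∃ P : Set (Tile F), IsTiling P ∧ Legal ball M P) ∧
      (∀ P : Set (Tile F), IsTiling P → Legal ball M P → ∀ p : E 2, p ≠ 0 → shift p P ≠ P) ∧
      (∃ δ c : F.ι → ℝ, CondA ball M δ c ∧ CondB ball M δ c) ∧
      ∀ Q : Set (Tile F), IsPatch Q → Q.Nonempty → (∀ T ∈ Q, ∀ T' ∈ Q, dist T.2 T'.2 ≤ ρ) →
        ∃ δ c : ℝ, CondPattern ball M Q δ c := by
  intro ρ ball hball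
  obtain ⟨τ, hτ⟩ := kexist
  refine ⟨F3, (blk ρ).rule kH kV, ⟨(blk ρ).til τ, (blk ρ).til_tiling τ,
    (blk ρ).til_legal kH kV hball τ hτ⟩, ?_, (blk ρ).types hball, ?_⟩
  · intro P hP hL p hp
    exact (blk ρ).no_period hball hP hL (fun τ hτ m n h => no_period hτ m n h) p hp
  · intro Q hQ hne hd
    refine (blk ρ).patterns hball ρ ?_ Q hQ hne hd
    show ρ < (((⌈ρ⌉.toNat : ℤ) + 1 : ℤ) : ℝ)
    have h1 : ρ ≤ ⌈ρ⌉ := Int.le_ceil ρ
    have h2 : (⌈ρ⌉ : ℤ) ≤ (⌈ρ⌉.toNat : ℤ) := Int.self_le_toNat _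
    have h3 : ((⌈ρ⌉ : ℤ) : ℝ) ≤ ((⌈ρ⌉.toNat : ℤ) : ℝ) := by exact_mod_cast h2
    push_cast at h3 ⊢
    linarith

end Pool.Agent.Results.MP_b7f0d9_co.BalancedRule
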